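import Pool.Agent.H16M.Main

/-!
# Random monster groups: all homomorphisms to biautomatic groups

Let `Ω_n` be finite graphs, infinitely many of which contain a cycle, and `k ≥ 2`, `j ≥ 1`. For
typical labellings `α` with values in `T^j` all homomorphisms from subgroups of finite index of the
random monster group `Γ_α` to biautomatic groups, and to all groups of a much larger class, are
determined. The only subgroups of finite index are `Γ_α` and the subgroup `Γ_α⁺` of the elements
represented by words of even length, which has index `2` if `j` is even or all the graphs are
bipartite, and which is `Γ_α` otherwise; the homomorphisms from `Γ_α⁺` are trivial. This holds for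
almost all labellings with respect to products of flexible probability measures (for example the
uniform distributions), and for generic labellings in the sense of Baire category. For every
countable group `G`, super-rigidity with respect to `G` is characterized for arbitrary sequences of
finite graphs.

Proof. Let `H` be a subgroup of `F_k` and `ψ : H → G` a homomorphism which does not kill all
quotients `s' s⁻¹`, `s, s' ∈ T^j`. If `Ω_n` contains a cycle, then a change of the label of one edge
of the cycle destroys the property that `H` contains, and `ψ` kills, all words read along closed
paths of `Ω_n` (`thin_Bset`). So this property has probability at most a constant `q < 1`, and it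
holds for all `n` with probability `0` and on a nowhere dense set only. There are countably many
homomorphisms from a finitely generated group to the finite symmetric groups, and to finitely
presented groups. Hence typically all subgroups of finite index of `F_k` which contain the relators
contain all even words, and homomorphisms from them to these groups kill all even words. The class
of the groups `G` such that homomorphisms from subgroups of finite index of `Γ_α` to `G` kill `Γ_α⁺`
is closed under detection (`kills_detected`), which gives closure under subgroups, extensions,
products, residual and local closure, and contains the elementary amenable and the locally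
indicable groups. If only finitely many graphs contain a cycle, then every finite collection of
labellings is attained by non-negligibly many `α` (`frequently_cylinder`).
-/

set_option autoImplicit false

namespace Pool.Agent.Results.MP_ddde08_al.ExactTargets

open MeasureTheory Filter Pool.Agent.H16M

universe u

/-- (1) The standing assumptions imply that infinitely many graphs contain a cycle. (2) The class
`Tame 𝓕` contains the groups `𝓕 i`, the biautomatic groups, the subgroups of finitely presented
groups, the residually finite, linear, locally indicable and elementary amenable groups, and is
closed under subgroups, extensions, products, residual and local closure. (3) The index of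
`Γ_α⁺`. (4) Uniform labellings are typical. (5) For typical labellings: super-rigidity and
hereditary super-rigidity with respect to biautomatic groups, the simultaneous description of all
homomorphisms from subgroups of finite index of `Γ_α` to all groups in `Tame 𝓕`, for every
countable family `𝓕` of countable groups, the converse, and the criterion. -/
theorem result :
    (∀ (d : ℕ) (V : ℕ → Type) [∀ n, Finite (V n)] (Ω : ∀ n, SimpleGraph (V n)),
      Standing Ω → (∀ n v, ((Ω n).neighborSet v).ncard ≤ d) → InfCyc Ω) ∧
    (∀ (I : Type) (𝓕 : I → Type u) [∀ i, Group (𝓕 i)], TameFacts 𝓕) ∧
    ∀ (k j : ℕ) (hk : 2 ≤ k) (_ : 1 ≤ j)
      (V : ℕ → Type) [∀ n, Finite (V n)] (Ω : ∀ n, SimpleGraph (V n)),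
      (∀ α : Labellings (Tpow k j hk) Ω,
        (EvenCase j Ω → (evPart α).index = 2) ∧ (¬ EvenCase j Ω → evPart α = ⊤)) ∧
      Typical (ae (labMeasure (Tpow k j hk) Ω)) ∧
      ∀ l : Filter (Labellings (Tpow k j hk) Ω), Typical l →
        (InfCyc Ω → ∀ (G : Type u) [Group G], IsBiautomatic G →
          SuperRigidFamily G l ∧ HereditarySuperRigid G l) ∧
        Complete.{u} l := by
  refine ⟨fun d V _ Ω hst hdeg => infinite_not_acyclic hst hdeg, fun I 𝓕 _ => tameFacts 𝓕, ?_⟩
  intro k j hk hj V _ Ω
  refine ⟨fun α => index_evPart α, typical_unif _ _, fun l hl => ⟨fun hΩ G _ hG => ?_, ?_⟩⟩
  · have hc := hG.countable
    have h := hereditary hl hj hΩ G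
    exact ⟨superRigidFamily_of_superRigid (superRigid_of_hereditary h), h⟩
  · exact complete hj hl

end Pool.Agent.Results.MP_ddde08_al.ExactTargets
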